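import Mathlib

open Filter Topology

namespace Pool.Agent.Results.MP_8f7167_an.TailSumCounterexample

section Definitions

variable {K : Type*} [RCLike K] {E : Type*} [NormedAddCommGroup E] [NormedSpace K E]

/-- Consistency of an infinite scalar matrix (rows and columns are indexed from `0`). -/
structure IsConsistent (t : ℕ → ℕ → K) : Prop where
  /-- every row is absolutely summable ... -/
  summable_norm : ∀ n, Summable fun m => ‖t n m‖
  /-- ... with a uniform bound -/
  bounded : ∃ C : ℝ, ∀ n, ∑' m, ‖t n m‖ ≤ C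
  /-- every column tends to zero -/
  column : ∀ m, Tendsto (fun n => t n m) atTop (𝓝 0)
  /-- the row sums tend to one -/
  row_sum : Tendsto (fun n => ∑' m, t n m) atTop (𝓝 1)

/-- `σ_{nm} = ∑_{j < m} t_{nj} ∑_{i ≤ j} α_i x_i`. -/
def sigmaPartial (t : ℕ → ℕ → K) (x : ℕ → E) (α : ℕ → K) (n m : ℕ) : E :=
  ∑ j ∈ Finset.range m, t n j • ∑ i ∈ Finset.range (j + 1), α i • x i

/-- The scalar sequence `α` represents `y`: all limits `σ_n = lim_m σ_{nm}` exist and
`σ_n → y`. -/
def TRepresents (t : ℕ → ℕ → K) (x : ℕ → E) (α : ℕ → K) (y : E) : Prop :=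
  ∃ σ : ℕ → E, (∀ n, Tendsto (sigmaPartial t x α n) atTop (𝓝 (σ n))) ∧
    Tendsto σ atTop (𝓝 y)

/-- `x` is a `T`-basis: every `y` is represented by exactly one scalar sequence. -/
def IsTBasis (t : ℕ → ℕ → K) (x : ℕ → E) : Prop :=
  ∀ y : E, ∃! α : ℕ → K, TRepresents t x α y

/-- `x` is an M-basis with associated functionals `f`. -/
structure IsMBasis (x : ℕ → E) (f : ℕ → StrongDual K E) : Prop where
  biorthogonal : ∀ i j, f i (x j) = if i = j then 1 else 0
  dense_span : (Submodule.span K (Set.range x)).topologicalClosure = ⊤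
  total : ∀ y, (∀ i, f i y = 0) → y = 0

/-- The tail sums `λ_{nm} = ∑_{j ≥ m} t_{nj}`. -/
noncomputable def tailSum (t : ℕ → ℕ → K) (n m : ℕ) : K := ∑' j, t n (m + j)

/-- The partial sums `∑_{i < m} λ_{ni} f_i(y) x_i`. -/
def tauPartial (lam : ℕ → ℕ → K) (x : ℕ → E) (f : ℕ → StrongDual K E) (y : E) (n m : ℕ) : E :=
  ∑ i ∈ Finset.range m, (lam n i * f i y) • x i

/-- `x` is a `γ`-basis with respect to the matrix `lam`. -/
def IsGammaBasis (lam : ℕ → ℕ → K) (x : ℕ → E) : Prop :=
  ∃ f : ℕ → StrongDual K E, IsMBasis x f ∧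
    ∀ y : E, ∃ τ : ℕ → E, (∀ n, Tendsto (tauPartial lam x f y n) atTop (𝓝 (τ n))) ∧
      Tendsto τ atTop (𝓝 y)

end Definitions

/-! ### The matrix -/

/-- The small weights. -/
noncomputable def eps (m : ℕ) : ℝ := if Even m then (1 / 16) ^ (m / 2) else (1 / 2) ^ (m / 2)

lemma eps_even (k : ℕ) : eps (2 * k) = (1 / 16) ^ k := by
  simp [eps]

lemma eps_odd (k : ℕ) : eps (2 * k + 1) = (1 / 2) ^ k := by
  have h : ¬ Even (2 * k + 1) := by
    simp
  have h2 : (2 * k + 1) / 2 = k := by omega
  simp [eps, h2]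

lemma eps_pos (m : ℕ) : 0 < eps m := by
  unfold eps; split_ifs <;> positivity

lemma summable_eps : Summable eps := by
  have h1 : Summable fun k => eps (2 * k) := by
    simp only [eps_even]
    exact summable_geometric_of_lt_one (by norm_num) (by norm_num)
  have h2 : Summable fun k => eps (2 * k + 1) := by
    simp only [eps_odd]
    exact summable_geometric_of_lt_one (by norm_num) (by norm_num)
  exact (h1.hasSum.even_add_odd h2.hasSum).summable

/-- The real matrix. -/
noncomputable def tR (n m : ℕ) : ℝ := (if m = 2 * n + 1 then 1 else 0) + (1 / ((n : ℝ) + 1)) * eps m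

lemma tR_pos (n m : ℕ) : 0 < tR n m := by
  unfold tR
  have h := eps_pos m
  have : (0 : ℝ) < 1 / ((n : ℝ) + 1) * eps m := by positivity
  split_ifs <;> linarith

lemma hasSum_tR (n : ℕ) : HasSum (tR n) (1 + (1 / ((n : ℝ) + 1)) * ∑' m, eps m) := by
  unfold tR
  exact (hasSum_ite_eq (2 * n + 1) (1 : ℝ)).add (summable_eps.hasSum.mul_left _)

section

variable (K : Type*) [RCLike K]

/-- The matrix with entries in `K`. -/
noncomputable def tK (n m : ℕ) : K := ((tR n m : ℝ) : K)

variable {K}

lemma norm_tK (n m : ℕ) : ‖tK K n m‖ = tR n m := by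
  unfold tK
  rw [RCLike.norm_ofReal, abs_of_pos (tR_pos n m)]

lemma tendsto_inv_succ : Tendsto (fun n : ℕ => 1 / ((n : ℝ) + 1)) atTop (𝓝 0) :=
  tendsto_one_div_add_atTop_nhds_zero_nat

lemma isConsistent_tK : IsConsistent (tK K) where
  summable_norm n := by
    simp only [norm_tK]
    exact (hasSum_tR n).summable
  bounded := by
    refine ⟨1 + ∑' m, eps m, fun n => ?_⟩
    simp only [norm_tK]
    rw [(hasSum_tR n).tsum_eq]
    have h0 : 0 ≤ ∑' m, eps m := tsum_nonneg fun m => (eps_pos m).le
    have h1 : 1 / ((n : ℝ) + 1) ≤ 1 := by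
      rw [div_le_one (by positivity)]
      have : (0 : ℝ) ≤ n := by positivity
      linarith
    have h2 : 1 / ((n : ℝ) + 1) * ∑' m, eps m ≤ 1 * ∑' m, eps m :=
      mul_le_mul_of_nonneg_right h1 h0
    linarith
  column m := by
    have h : Tendsto (fun n => tR n m) atTop (𝓝 0) := by
      unfold tR
      have h1 : Tendsto (fun n : ℕ => (if m = 2 * n + 1 then (1 : ℝ) else 0)) atTop (𝓝 0) := by
        refine tendsto_const_nhds.congr' ?_
        filter_upwards [eventually_gt_atTop m] with n hn
        rw [if_neg (by omega)]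
      have h2 : Tendsto (fun n : ℕ => 1 / ((n : ℝ) + 1) * eps m) atTop (𝓝 (0 * eps m)) :=
        tendsto_inv_succ.mul_const _
      simpa using h1.add h2
    have h' := (RCLike.continuous_ofReal (K := K)).tendsto 0 |>.comp h
    simpa [tK, Function.comp_def] using h'
  row_sum := by
    have h : ∀ n, ∑' m, tK K n m = ((1 + (1 / ((n : ℝ) + 1)) * ∑' m, eps m : ℝ) : K) := by
      intro n
      exact ((RCLike.hasSum_ofReal K).mpr (hasSum_tR n)).tsum_eq
    simp only [h]
    have h1 : Tendsto (fun n : ℕ => 1 + (1 / ((n : ℝ) + 1)) * ∑' m, eps m) atTop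
        (𝓝 (1 + 0 * ∑' m, eps m)) :=
      (tendsto_inv_succ.mul_const _).const_add _
    have h' := (RCLike.continuous_ofReal (K := K)).tendsto _ |>.comp h1
    simpa [Function.comp_def] using h'

end

/-! ### The basis -/

section Basis

variable {K : Type*} [RCLike K] {E : Type*} [NormedAddCommGroup E] [NormedSpace K E]

/-- General lemma: if `x` has biorthogonal continuous functionals then a representing sequence
for a consistent matrix is unique. -/
lemma coeff_eq {t : ℕ → ℕ → K} (ht : IsConsistent t) {x : ℕ → E} {f : ℕ → StrongDual K E}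
    (hf : ∀ i j, f i (x j) = if i = j then 1 else 0) {α : ℕ → K} {y : E}
    (h : TRepresents t x α y) (i : ℕ) : α i = f i y := by
  obtain ⟨σ, h1, h2⟩ := h
  have hsum : ∀ n, Summable (t n) := fun n => (ht.summable_norm n).of_norm
  have key : ∀ n, f i (σ n) = (∑' m, t n m - ∑ j ∈ Finset.range i, t n j) * α i := by
    intro n
    have hA : Tendsto (fun m => f i (sigmaPartial t x α n m)) atTop (𝓝 (f i (σ n))) :=
      ((f i).continuous.tendsto _).comp (h1 n)
    have hB : Tendsto (fun m => (∑ j ∈ Finset.range m, t n j - ∑ j ∈ Finset.range i, t n j) * α i)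
        atTop (𝓝 ((∑' m, t n m - ∑ j ∈ Finset.range i, t n j) * α i)) :=
      (((hsum n).hasSum.tendsto_sum_nat).sub_const _).mul_const _
    refine tendsto_nhds_unique hA (hB.congr' ?_)
    filter_upwards [eventually_ge_atTop i] with m hm
    unfold sigmaPartial
    rw [map_sum]
    have hcoef : ∀ j, f i (t n j • ∑ i' ∈ Finset.range (j + 1), α i' • x i') =
        if i ≤ j then t n j * α i else 0 := by
      intro j
      rw [map_smul, map_sum, smul_eq_mul]
      have : ∀ i' ∈ Finset.range (j + 1), f i (α i' • x i') = if i = i' then α i' else 0 := by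
        intro i' _
        rw [map_smul, hf, smul_eq_mul]
        split_ifs <;> simp
      rw [Finset.sum_congr rfl this, Finset.sum_ite_eq]
      simp only [Finset.mem_range, Nat.lt_succ_iff]
      split_ifs <;> simp
    rw [Finset.sum_congr rfl fun j _ => hcoef j]
    obtain ⟨k, rfl⟩ := Nat.exists_eq_add_of_le hm
    rw [Finset.sum_range_add, Finset.sum_range_add, add_sub_cancel_left, Finset.sum_mul]
    have hz : ∑ x ∈ Finset.range i, (if i ≤ x then t n x * α i else 0) = 0 := by
      apply Finset.sum_eq_zero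
      intro j hj
      rw [if_neg (by simpa using hj)]
    rw [hz, zero_add]
    apply Finset.sum_congr rfl
    intro j _
    rw [if_pos (by omega)]
  have hC : Tendsto (fun n => f i (σ n)) atTop (𝓝 (f i y)) :=
    ((f i).continuous.tendsto _).comp h2
  have hD : Tendsto (fun n => (∑' m, t n m - ∑ j ∈ Finset.range i, t n j) * α i) atTop
      (𝓝 ((1 - ∑ j ∈ Finset.range i, (0 : K)) * α i)) :=
    (ht.row_sum.sub (tendsto_finsetSum _ fun j _ => ht.column j)).mul_const _
  have hE := tendsto_nhds_unique hC (hD.congr fun n => (key n).symm)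
  simpa using hE.symm

/-- The new basis vectors built from a normalised basis `e`. -/
noncomputable def newBasis (e : ℕ → E) (i : ℕ) : E :=
  if Even i then e i else e (i - 1) + ((1 / 8 : K) ^ (i / 2)) • e i

/-- The associated functionals. -/
noncomputable def newFun (c : ℕ → StrongDual K E) (i : ℕ) : StrongDual K E :=
  if Even i then c i - ((8 : K) ^ (i / 2)) • c (i + 1) else ((8 : K) ^ (i / 2)) • c i

lemma newBasis_even (e : ℕ → E) (k : ℕ) : newBasis (K := K) e (2 * k) = e (2 * k) := by
  simp [newBasis]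

lemma newBasis_odd (e : ℕ → E) (k : ℕ) :
    newBasis (K := K) e (2 * k + 1) = e (2 * k) + ((1 / 8 : K) ^ k) • e (2 * k + 1) := by
  have h : ¬ Even (2 * k + 1) := by simp
  have h2 : (2 * k + 1) / 2 = k := by omega
  simp [newBasis, h2]

lemma newFun_even (c : ℕ → StrongDual K E) (k : ℕ) :
    newFun c (2 * k) = c (2 * k) - ((8 : K) ^ k) • c (2 * k + 1) := by
  simp [newFun]

lemma newFun_odd (c : ℕ → StrongDual K E) (k : ℕ) :
    newFun c (2 * k + 1) = ((8 : K) ^ k) • c (2 * k + 1) := by
  have h2 : (2 * k + 1) / 2 = k := by omega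
  simp [newFun, h2]

lemma pow8 (k : ℕ) : (8 : K) ^ k * (1 / 8 : K) ^ k = 1 := by
  rw [← mul_pow]; norm_num

lemma sum_even (e : ℕ → E) (c : ℕ → StrongDual K E) (y : E) (k : ℕ) :
    ∑ i ∈ Finset.range (2 * k), newFun c i y • newBasis (K := K) e i =
      ∑ i ∈ Finset.range (2 * k), c i y • e i := by
  induction k with
  | zero => simp
  | succ k ih =>
    have h : 2 * (k + 1) = 2 * k + 1 + 1 := by ring
    rw [h, Finset.sum_range_succ, Finset.sum_range_succ, ih, Finset.sum_range_succ,
      Finset.sum_range_succ, newBasis_even, newBasis_odd, newFun_even, newFun_odd]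
    have h8 := pow8 (K := K) k
    simp only [sub_apply, smul_apply, smul_eq_mul,
      smul_add, sub_smul, smul_smul]
    have : (8 : K) ^ k * c (2 * k + 1) y * (1 / 8) ^ k = c (2 * k + 1) y := by
      calc (8 : K) ^ k * c (2 * k + 1) y * (1 / 8) ^ k
          = ((8 : K) ^ k * (1 / 8 : K) ^ k) * c (2 * k + 1) y := by ring
        _ = _ := by rw [h8, one_mul]
    rw [this]
    abel

/-- A normalised Schauder basis with its coordinate functionals. -/
structure IsNormBasis (e : ℕ → E) (c : ℕ → StrongDual K E) : Prop where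
  norm_eq : ∀ i, ‖e i‖ = 1
  ortho : ∀ i j, c i (e j) = if i = j then 1 else 0
  expansion : ∀ y, Tendsto (fun m => ∑ i ∈ Finset.range m, c i y • e i) atTop (𝓝 y)

variable {e : ℕ → E} {c : ℕ → StrongDual K E}

lemma IsNormBasis.newFun_newBasis (h : IsNormBasis e c) (i j : ℕ) :
    newFun c i (newBasis (K := K) e j) = if i = j then 1 else 0 := by
  have h8 : ∀ k, (8 : K) ^ k * (1 / 8 : K) ^ k = 1 := pow8
  rcases Nat.even_or_odd' i with ⟨k, rfl | rfl⟩ <;> rcases Nat.even_or_odd' j with ⟨l, rfl | rfl⟩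
  · rw [newFun_even, newBasis_even]
    simp only [sub_apply, smul_apply, h.ortho, smul_eq_mul]
    have h1 : ¬ (2 * k + 1 = 2 * l) := by omega
    simp [h1]
  · rw [newFun_even, newBasis_odd]
    simp only [sub_apply, smul_apply, map_add, map_smul, h.ortho, smul_eq_mul]
    have h1 : ¬ (2 * k = 2 * l + 1) := by omega
    have h2 : ¬ (2 * k + 1 = 2 * l) := by omega
    by_cases hkl : k = l
    · subst hkl
      simp [h1, h2, ← mul_pow]
    · have h3 : ¬ (2 * k = 2 * l) := by omega
      have h4 : ¬ (2 * k + 1 = 2 * l + 1) := by omega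
      simp [h1, h2, h3, h4, hkl]
  · rw [newFun_odd, newBasis_even]
    simp only [smul_apply, h.ortho, smul_eq_mul]
    have h1 : ¬ (2 * k + 1 = 2 * l) := by omega
    simp [h1]
  · rw [newFun_odd, newBasis_odd]
    simp only [smul_apply, map_add, map_smul, h.ortho, smul_eq_mul]
    have h2 : ¬ (2 * k + 1 = 2 * l) := by omega
    by_cases hkl : k = l
    · subst hkl
      simp [h2, ← mul_pow]
    · have h4 : ¬ (2 * k + 1 = 2 * l + 1) := by omega
      simp [h2, h4, hkl]

lemma IsNormBasis.coord_bdd (h : IsNormBasis e c) (y : E) : ∃ B : ℝ, ∀ i, ‖c i y‖ ≤ B := by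
  obtain ⟨M, hM⟩ := isBounded_iff_forall_norm_le.mp
    (Metric.isBounded_range_of_tendsto _ (h.expansion y))
  have hM' : ∀ m, ‖∑ i ∈ Finset.range m, c i y • e i‖ ≤ M := fun m => hM _ ⟨m, rfl⟩
  refine ⟨M + M, fun i => ?_⟩
  have h1 : c i y • e i = ∑ j ∈ Finset.range (i + 1), c j y • e j -
      ∑ j ∈ Finset.range i, c j y • e j := by
    rw [Finset.sum_range_succ]; abel
  have h2 : ‖c i y‖ = ‖c i y • e i‖ := by rw [norm_smul, h.norm_eq, mul_one]
  rw [h2, h1]
  exact (norm_sub_le _ _).trans (add_le_add (hM' _) (hM' _))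

/-- The partial sums with respect to the new system. -/
noncomputable def S (e : ℕ → E) (c : ℕ → StrongDual K E) (y : E) (j : ℕ) : E :=
  ∑ i ∈ Finset.range (j + 1), newFun c i y • newBasis (K := K) e i

lemma S_odd (e : ℕ → E) (c : ℕ → StrongDual K E) (y : E) (k : ℕ) :
    S e c y (2 * k + 1) = ∑ i ∈ Finset.range (2 * k + 2), c i y • e i := by
  unfold S
  have : 2 * k + 1 + 1 = 2 * (k + 1) := by ring
  rw [this, sum_even]

lemma S_even (e : ℕ → E) (c : ℕ → StrongDual K E) (y : E) (k : ℕ) :
    S e c y (2 * k) = ∑ i ∈ Finset.range (2 * k), c i y • e i +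
      (c (2 * k) y - (8 : K) ^ k * c (2 * k + 1) y) • e (2 * k) := by
  unfold S
  rw [Finset.sum_range_succ, sum_even, newBasis_even, newFun_even]
  simp [sub_apply, smul_apply]

lemma IsNormBasis.summable_S [CompleteSpace E] (h : IsNormBasis e c) (y : E) :
    Summable fun j => ‖((eps j : ℝ) : K) • S e c y j‖ := by
  obtain ⟨B, hB⟩ := h.coord_bdd y
  obtain ⟨M, hM⟩ := isBounded_iff_forall_norm_le.mp
    (Metric.isBounded_range_of_tendsto _ (h.expansion y))
  have hM' : ∀ m, ‖∑ i ∈ Finset.range m, c i y • e i‖ ≤ M := fun m => hM _ ⟨m, rfl⟩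
  have hB0 : 0 ≤ B := (norm_nonneg _).trans (hB 0)
  have hM0 : 0 ≤ M := (norm_nonneg _).trans (hM' 0)
  have hn : ∀ j, ‖((eps j : ℝ) : K) • S e c y j‖ = eps j * ‖S e c y j‖ := by
    intro j
    rw [norm_smul, RCLike.norm_ofReal, abs_of_pos (eps_pos j)]
  simp only [hn]
  have h8 : ‖(8 : K)‖ = 8 := by
    simp
  have he : Summable fun k => eps (2 * k) * ‖S e c y (2 * k)‖ := by
    refine Summable.of_nonneg_of_le (fun k => mul_nonneg (eps_pos _).le (norm_nonneg _))
      (fun k => ?_) ((summable_geometric_of_lt_one (r := (1 / 2 : ℝ)) (by norm_num)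
        (by norm_num)).mul_left (M + B + B))
    rw [eps_even, S_even]
    have h1 : ‖∑ i ∈ Finset.range (2 * k), c i y • e i +
        (c (2 * k) y - (8 : K) ^ k * c (2 * k + 1) y) • e (2 * k)‖ ≤ M + (B + 8 ^ k * B) := by
      refine (norm_add_le _ _).trans (add_le_add (hM' _) ?_)
      rw [norm_smul, h.norm_eq, mul_one]
      refine (norm_sub_le _ _).trans (add_le_add (hB _) ?_)
      rw [norm_mul, norm_pow, h8]
      exact mul_le_mul_of_nonneg_left (hB _) (by positivity)
    have h2 : M + (B + 8 ^ k * B) ≤ (M + B + B) * 8 ^ k := by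
      have : (1 : ℝ) ≤ 8 ^ k := one_le_pow₀ (by norm_num)
      nlinarith
    calc (1 / 16 : ℝ) ^ k * ‖_‖ ≤ (1 / 16 : ℝ) ^ k * ((M + B + B) * 8 ^ k) :=
          mul_le_mul_of_nonneg_left (h1.trans h2) (by positivity)
      _ = (M + B + B) * ((1 / 16 : ℝ) * 8) ^ k := by rw [mul_pow]; ring
      _ = (M + B + B) * (1 / 2 : ℝ) ^ k := by norm_num
  have ho : Summable fun k => eps (2 * k + 1) * ‖S e c y (2 * k + 1)‖ := by
    refine Summable.of_nonneg_of_le (fun k => mul_nonneg (eps_pos _).le (norm_nonneg _))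
      (fun k => ?_) ((summable_geometric_of_lt_one (r := (1 / 2 : ℝ)) (by norm_num)
        (by norm_num)).mul_left M)
    rw [eps_odd, S_odd, mul_comm M]
    exact mul_le_mul_of_nonneg_left (hM' _) (by positivity)
  exact (he.hasSum.even_add_odd ho.hasSum).summable

lemma IsNormBasis.isTBasis [CompleteSpace E] (h : IsNormBasis e c) :
    IsTBasis (tK K) (newBasis (K := K) e) := by
  intro y
  refine ⟨fun i => newFun c i y, ?_, ?_⟩
  · set Z : E := ∑' j, ((eps j : ℝ) : K) • S e c y j with hZ
    have hsZ : Summable fun j => ((eps j : ℝ) : K) • S e c y j := (h.summable_S y).of_norm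
    refine ⟨fun n => S e c y (2 * n + 1) + ((1 / ((n : ℝ) + 1) : ℝ) : K) • Z, ?_, ?_⟩
    · intro n
      have h1 : HasSum (fun j => (if j = 2 * n + 1 then S e c y (2 * n + 1) else 0) +
          ((1 / ((n : ℝ) + 1) : ℝ) : K) • (((eps j : ℝ) : K) • S e c y j))
          (S e c y (2 * n + 1) + ((1 / ((n : ℝ) + 1) : ℝ) : K) • Z) :=
        (hasSum_ite_eq (2 * n + 1) _).add (hsZ.hasSum.const_smul _)
      refine h1.tendsto_sum_nat.congr fun m => ?_
      unfold sigmaPartial
      apply Finset.sum_congr rfl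
      intro j _
      change _ = tK K n j • S e c y j
      unfold tK tR
      by_cases hj : j = 2 * n + 1
      · subst hj
        simp [add_smul, smul_smul]
      · simp [hj, smul_smul]
    · have h1 : Tendsto (fun n : ℕ => S e c y (2 * n + 1)) atTop (𝓝 y) := by
        simp only [S_odd]
        exact (h.expansion y).comp
          (tendsto_atTop_mono (fun n => (by omega : n ≤ 2 * n + 2)) tendsto_id)
      have h2 : Tendsto (fun n : ℕ => ((1 / ((n : ℝ) + 1) : ℝ) : K) • Z) atTop (𝓝 (0 : E)) := by
        have h3 := ((RCLike.continuous_ofReal (K := K)).tendsto 0).comp tendsto_inv_succ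
        have h4 := h3.smul_const Z
        simpa [Function.comp_def] using h4
      simpa using h1.add h2
  · intro β hβ
    funext i
    exact coeff_eq isConsistent_tK h.newFun_newBasis hβ i

lemma IsNormBasis.isMBasis (h : IsNormBasis e c) :
    IsMBasis (newBasis (K := K) e) (newFun c) where
  biorthogonal := h.newFun_newBasis
  dense_span := by
    rw [eq_top_iff]
    intro y _
    have hmem : ∀ i, e i ∈ Submodule.span K (Set.range (newBasis (K := K) e)) := by
      intro i
      rcases Nat.even_or_odd' i with ⟨k, rfl | rfl⟩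
      · rw [← newBasis_even (K := K) e k]
        exact Submodule.subset_span ⟨_, rfl⟩
      · have h1 : e (2 * k + 1) = ((8 : K) ^ k) • (newBasis (K := K) e (2 * k + 1) -
            newBasis (K := K) e (2 * k)) := by
          rw [newBasis_even, newBasis_odd, add_sub_cancel_left, smul_smul, pow8, one_smul]
        rw [h1]
        exact Submodule.smul_mem _ _ (Submodule.sub_mem _ (Submodule.subset_span ⟨_, rfl⟩)
          (Submodule.subset_span ⟨_, rfl⟩))
    refine mem_closure_of_tendsto (h.expansion y) (Eventually.of_forall fun m => ?_)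
    exact Submodule.sum_mem _ fun i _ => Submodule.smul_mem _ _ (hmem i)
  total := by
    intro y hy
    have hc : ∀ i, c i y = 0 := by
      have hodd : ∀ k, c (2 * k + 1) y = 0 := by
        intro k
        have := hy (2 * k + 1)
        rw [newFun_odd, smul_apply, smul_eq_mul] at this
        rcases mul_eq_zero.mp this with h1 | h1
        · exact absurd h1 (pow_ne_zero _ (by norm_num))
        · exact h1
      intro i
      rcases Nat.even_or_odd' i with ⟨k, rfl | rfl⟩
      · have := hy (2 * k)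
        rw [newFun_even, sub_apply, smul_apply, hodd, smul_zero, sub_zero] at this
        exact this
      · exact hodd k
    have h1 := h.expansion y
    simp only [hc, zero_smul, Finset.sum_const_zero] at h1
    exact (tendsto_nhds_unique h1 tendsto_const_nhds)

lemma IsNormBasis.diverges [CompleteSpace E] (h : IsNormBasis e c) :
    ∃ y : E, ∀ n, ¬ ∃ s : E,
      Tendsto (tauPartial (tailSum (tK K)) (newBasis (K := K) e) (newFun c) y n) atTop (𝓝 s) := by
  have hs : Summable fun k : ℕ => ((1 / 2 : K) ^ k) • e (2 * k + 1) := by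
    apply Summable.of_norm
    have : (fun k : ℕ => ‖((1 / 2 : K) ^ k) • e (2 * k + 1)‖) = fun k : ℕ => (1 / 2 : ℝ) ^ k := by
      funext k
      rw [norm_smul, h.norm_eq, mul_one, norm_pow, norm_div, norm_one, RCLike.norm_ofNat]
    rw [this]
    exact summable_geometric_of_lt_one (by norm_num) (by norm_num)
  set y : E := ∑' k : ℕ, ((1 / 2 : K) ^ k) • e (2 * k + 1) with hy
  have hcy : ∀ i, c i y = ∑' k : ℕ, ((1 / 2 : K) ^ k) * c i (e (2 * k + 1)) := by
    intro i
    rw [hy, (c i).map_tsum hs]
    simp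
  have hodd : ∀ l, c (2 * l + 1) y = (1 / 2 : K) ^ l := by
    intro l
    rw [hcy]
    rw [tsum_eq_single l]
    · simp [h.ortho]
    · intro k hk
      rw [h.ortho, if_neg (by omega), mul_zero]
  have heven : ∀ l, c (2 * l) y = 0 := by
    intro l
    rw [hcy]
    have : ∀ k, ((1 / 2 : K) ^ k) * c (2 * l) (e (2 * k + 1)) = 0 := by
      intro k
      rw [h.ortho, if_neg (by omega), mul_zero]
    simp only [this, tsum_zero]
  refine ⟨y, fun n => ?_⟩
  rintro ⟨s, hs'⟩
  -- the terms of a convergent series tend to zero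
  have hterm : Tendsto (fun i => (tailSum (tK K) n i * newFun c i y) • newBasis (K := K) e i)
      atTop (𝓝 0) := by
    have h1 := (hs'.comp (tendsto_add_atTop_nat 1)).sub hs'
    rw [sub_self] at h1
    refine h1.congr fun i => ?_
    simp only [Function.comp_def, tauPartial]
    rw [Finset.sum_range_succ]
    abel
  have hterm2 : Tendsto (fun k : ℕ => ‖(tailSum (tK K) n (2 * k) * newFun c (2 * k) y) •
      newBasis (K := K) e (2 * k)‖) atTop (𝓝 0) := by
    have := (hterm.comp (tendsto_atTop_mono (fun k => (by omega : k ≤ 2 * k)) tendsto_id)).norm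
    simpa [Function.comp_def] using this
  have hlow : ∀ k : ℕ, (1 / ((n : ℝ) + 1)) ≤ ‖(tailSum (tK K) n (2 * k) * newFun c (2 * k) y) •
      newBasis (K := K) e (2 * k)‖ := by
    intro k
    rw [newBasis_even, norm_smul, h.norm_eq, mul_one, norm_mul, newFun_even, sub_apply,
      smul_apply, heven, hodd, zero_sub, norm_neg, smul_eq_mul, ← mul_pow, norm_pow, norm_mul,
      norm_div, norm_one, RCLike.norm_ofNat, RCLike.norm_ofNat]
    have h1 : tailSum (tK K) n (2 * k) = ((∑' j, tR n (2 * k + j) : ℝ) : K) := by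
      unfold tailSum tK
      rw [RCLike.ofReal_tsum]
    have h2 : Summable fun j => tR n (2 * k + j) := by
      have := (summable_nat_add_iff (2 * k)).mpr (hasSum_tR n).summable
      simpa [add_comm] using this
    have h3 : tR n (2 * k + 1) ≤ ∑' j, tR n (2 * k + j) :=
      h2.le_tsum 1 fun j _ => (tR_pos n _).le
    have h4 : (1 / ((n : ℝ) + 1)) * (1 / 2) ^ k ≤ tR n (2 * k + 1) := by
      unfold tR
      rw [eps_odd]
      have : (0 : ℝ) ≤ if 2 * k + 1 = 2 * n + 1 then 1 else 0 := by split_ifs <;> norm_num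
      linarith
    rw [h1, RCLike.norm_ofReal, abs_of_nonneg (tsum_nonneg fun j => (tR_pos n _).le)]
    have h5 : (1 / ((n : ℝ) + 1)) * (1 / 2) ^ k * (8 * (1 / 2)) ^ k ≤
        (∑' j, tR n (2 * k + j)) * (8 * (1 / 2)) ^ k :=
      mul_le_mul_of_nonneg_right (h4.trans h3) (by positivity)
    refine le_trans ?_ h5
    rw [mul_assoc, ← mul_pow]
    have h6 : (1 : ℝ) ≤ (1 / 2 * (8 * (1 / 2))) ^ k := one_le_pow₀ (by norm_num)
    have h7 : (0 : ℝ) ≤ 1 / ((n : ℝ) + 1) := by positivity
    nlinarith
  have hle := ge_of_tendsto' hterm2 hlow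
  have : (0 : ℝ) < 1 / ((n : ℝ) + 1) := by positivity
  linarith

/-- Normalising a Schauder basis. -/
lemma exists_isNormBasis (b : SchauderBasis K E) :
    ∃ (e : ℕ → E) (c : ℕ → StrongDual K E), IsNormBasis e c := by
  have hne : ∀ i, b i ≠ 0 := by
    intro i hi
    have h1 := b.ortho i i
    rw [hi] at h1
    simp at h1
  have hn : ∀ i, ((‖b i‖ : ℝ) : K) ≠ 0 := by
    intro i
    simpa using hne i
  refine ⟨fun i => ((‖b i‖ : ℝ) : K)⁻¹ • b i, fun i => ((‖b i‖ : ℝ) : K) • b.coord i, ?_, ?_, ?_⟩
  · intro i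
    rw [norm_smul, norm_inv, RCLike.norm_ofReal, abs_norm]
    exact inv_mul_cancel₀ (norm_ne_zero_iff.mpr (hne i))
  · intro i j
    have h1 := b.ortho i j
    rw [smul_apply, map_smul, h1]
    by_cases hij : i = j
    · subst hij
      simp [hne i]
    · simp [hij]
  · intro y
    have h1 := SchauderBasis.tendsto_proj b y
    refine h1.congr fun m => ?_
    rw [SchauderBasis.proj_apply]
    apply Finset.sum_congr rfl
    intro i _
    rw [smul_apply, smul_eq_mul, smul_smul, mul_comm (((‖b i‖ : ℝ) : K)), mul_assoc,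
      mul_inv_cancel₀ (hn i), mul_one]

/-- The associated functionals of an M-basis are unique. -/
lemma IsMBasis.unique {x : ℕ → E} {f g : ℕ → StrongDual K E} (hf : IsMBasis x f)
    (hg : IsMBasis x g) : f = g := by
  funext i
  have h : ∀ y ∈ Submodule.span K (Set.range x), f i y = g i y := by
    intro y hy
    induction hy using Submodule.span_induction with
    | mem z hz =>
      obtain ⟨j, rfl⟩ := hz
      rw [hf.biorthogonal, hg.biorthogonal]
    | zero => simp
    | add a b _ _ ha hb => rw [map_add, map_add, ha, hb]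
    | smul r a _ ha => rw [map_smul, map_smul, ha]
  have hcl : IsClosed {y : E | f i y = g i y} := isClosed_eq (f i).continuous (g i).continuous
  ext y
  have hy : y ∈ (Submodule.span K (Set.range x)).topologicalClosure := by
    rw [hf.dense_span]; trivial
  exact closure_minimal h hcl hy

end Basis

/-- The sequence space `ℓ²(ℕ, K)`. -/
abbrev EllTwo (K : Type*) [RCLike K] : Type _ := lp (fun _ : ℕ => K) 2

lemma nonempty_schauderBasis_ellTwo (K : Type*) [RCLike K] :
    Nonempty (SchauderBasis K (EllTwo K)) := by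
  classical
  have key : ∀ y : EllTwo K, HasSum (fun i => (lp.evalCLM K (fun _ : ℕ => K) 2 i) y •
      (lp.single 2 i (1 : K) : EllTwo K)) y := by
    intro y
    have h := lp.hasSum_single (E := fun _ : ℕ => K) (p := 2) (by norm_num) y
    have h2 : (fun i => (lp.evalCLM K (fun _ : ℕ => K) 2 i) y •
        (lp.single 2 i (1 : K) : EllTwo K)) = fun i => lp.single 2 i (y i) := by
      funext i
      rw [← lp.single_smul]
      simp [lp.evalCLM]
    rw [h2]
    exact h
  refine ⟨⟨fun i => lp.single 2 i (1 : K), fun i => lp.evalCLM K (fun _ : ℕ => K) 2 i, ?_, ?_⟩⟩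
  · intro i j
    simp [lp.evalCLM, Pi.single_apply]
  · intro y
    have h := (key y).tendsto_sum_nat
    rw [HasSum, SummationFilter.conditional_filter_eq_map_range]
    exact h

/-- **Negative answer to Q1.**  For `K = ℝ` and `K = ℂ` there is one consistent matrix `t`, all of
whose entries are positive real numbers, such that every Banach space `E` over `K` that has a
Schauder basis (for instance `ℓ²`) has a `T`-basis `x` which is not a `γ`-basis with respect to the
tail-sum matrix of `t`: for a suitable `y` and **every** row `n` the series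
`∑_i λ_{ni} f_i(y) x_i` diverges. -/
theorem result (K : Type) [RCLike K] :
    ∃ t : ℕ → ℕ → K, IsConsistent t ∧ (∀ n m, ∃ r : ℝ, 0 < r ∧ t n m = (r : K)) ∧
      (∀ (E : Type) [NormedAddCommGroup E] [NormedSpace K E] [CompleteSpace E],
        Nonempty (SchauderBasis K E) →
        ∃ (x : ℕ → E) (f : ℕ → StrongDual K E), IsTBasis t x ∧ IsMBasis x f ∧
          (∃ y : E, ∀ n, ¬ ∃ s : E, Tendsto (tauPartial (tailSum t) x f y n) atTop (𝓝 s)) ∧
          ¬ IsGammaBasis (tailSum t) x) ∧
      Nonempty (SchauderBasis K (EllTwo K)) := by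
  refine ⟨tK K, isConsistent_tK, fun n m => ⟨tR n m, tR_pos n m, rfl⟩, ?_,
    nonempty_schauderBasis_ellTwo K⟩
  rintro E _ _ _ ⟨b⟩
  obtain ⟨e, c, h⟩ := exists_isNormBasis b
  refine ⟨newBasis (K := K) e, newFun c, h.isTBasis, h.isMBasis, h.diverges, ?_⟩
  rintro ⟨f, hf, hconv⟩
  have hfc : f = newFun c := hf.unique h.isMBasis
  subst hfc
  obtain ⟨y, hy⟩ := h.diverges
  obtain ⟨τ, hτ, _⟩ := hconv y
  exact hy 0 ⟨τ 0, hτ 0⟩

end Pool.Agent.Results.MP_8f7167_an.TailSumCounterexample
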